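import Pool.Agent.H594R2.Mey2.Graph
import Pool.Agent.V11214.GS.Signed

/-!
# The cop number of graphs of bounded genus and average degree at least `6 + δ`

A connected graph with average degree at least `6 + δ` which embeds in a closed surface of Euler
characteristic at least `2 - g` has at most `6 g / δ` vertices, by Euler's formula. So its cop number
is at most `81 √(6 g / δ) (log (6 g / δ) + 1)`, by the bound of the starting files for Meyniel's
conjecture.
-/

set_option autoImplicit false

namespace Pool.Agent.Results.MP_f930e6_co.LargeAverageDegree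

open N6ef48c04 Pool.Agent.V11214.GS

/-- `G` has a cellular embedding in the orientable surface of genus at most `h`, given by a rotation
`σ` at the vertices: `2 - 2 h ≤ n - e + f`. -/
def OrientableGenusLe {V : Type} (G : SimpleGraph V) (h : ℕ) : Prop :=
  ∃ σ : Equiv.Perm G.Dart, IsRotation G σ ∧
    2 - 2 * (h : ℤ) ≤ (Nat.card V : ℤ) - (Nat.card G.edgeSet : ℤ) + faces G σ

/-- **Theorem.** Let `G` be a connected graph with average degree at least `6 + δ`, `δ > 0`. If `G`
has a cellular embedding in a closed surface of Euler characteristic at least `2 - g` then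
`c(G) ≤ 81 √(6 g / δ) (log (6 g / δ) + 1)`; and if it has a cellular embedding in an orientable
surface of genus at most `h` then `c(G) ≤ 81 √(12 h / δ) (log (12 h / δ) + 1)`. -/
theorem result : ∀ (δ : ℝ), 0 < δ → ∀ (V : Type) [Fintype V] (G : SimpleGraph V), G.Connected →
    (6 + δ) * Fintype.card V ≤ 2 * Nat.card G.edgeSet →
    (∀ g : ℕ, EulerGenusLe G g →
      (copNumber G : ℝ) ≤ 81 * √(6 * g / δ) * (Real.log (6 * g / δ) + 1)) ∧
    (∀ h : ℕ, OrientableGenusLe G h →
      (copNumber G : ℝ) ≤ 81 * √(12 * h / δ) * (Real.log (12 * h / δ) + 1)) := by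
  classical
  intro δ hδ V _ G hG he
  obtain ⟨v⟩ := hG.nonempty
  have hn0 : 0 < Fintype.card V := Fintype.card_pos_iff.2 ⟨v⟩
  have hn1 : (1 : ℝ) ≤ Fintype.card V := by exact_mod_cast hn0
  have hV : 3 ≤ Fintype.card V := by
    have h1 : G.edgeFinset.card ≤ (Fintype.card V).choose 2 :=
      SimpleGraph.card_edgeFinset_le_card_choose_two
    have h2 : Nat.card G.edgeSet = G.edgeFinset.card := by
      rw [Nat.card_eq_fintype_card, SimpleGraph.edgeFinset_card]
    have h3 : 2 * (Fintype.card V).choose 2 ≤ Fintype.card V * (Fintype.card V - 1) := by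
      rw [Nat.choose_two_right]
      exact Nat.mul_div_le _ _
    have h4 : 6 * Fintype.card V ≤ 2 * Nat.card G.edgeSet := by
      have h5 : (6 : ℝ) * Fintype.card V ≤ 2 * Nat.card G.edgeSet := by nlinarith
      exact_mod_cast h5
    have h6 : 6 * Fintype.card V ≤ (Fintype.card V - 1) * Fintype.card V := by
      rw [mul_comm (Fintype.card V - 1)]
      omega
    have h7 := Nat.le_of_mul_le_mul_right h6 hn0
    omega
  have key : ∀ x : ℝ, (Nat.card G.edgeSet : ℝ) ≤ 3 * Fintype.card V + 3 * x →
      (copNumber G : ℝ) ≤ 81 * √(6 * x / δ) * (Real.log (6 * x / δ) + 1) := by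
    intro x hx
    have h2 : (Fintype.card V : ℝ) ≤ 6 * x / δ := by
      rw [le_div_iff₀ hδ]
      linarith
    have h3 := Pool.Agent.H594R2.Mey2.graph_bound G hG
    have h4 : √(Fintype.card V : ℝ) ≤ √(6 * x / δ) := Real.sqrt_le_sqrt h2
    have h5 : Real.log (Fintype.card V) ≤ Real.log (6 * x / δ) :=
      Real.log_le_log (by linarith) h2
    have h6 : 0 ≤ Real.log (Fintype.card V : ℝ) := Real.log_natCast_nonneg _
    refine h3.trans ?_
    gcongr
  constructor
  · intro g hg
    refine key g ?_
    have h1 : (Nat.card G.edgeSet : ℝ) + 6 ≤ 3 * Fintype.card V + 3 * g := by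
      exact_mod_cast euler_bound hG hV hg
    linarith
  · rintro h ⟨σ, hσ, h1⟩
    have h2 := faces_le hG hV hσ
    rw [Nat.card_eq_fintype_card (α := V)] at h1
    have h3 : (Nat.card G.edgeSet : ℝ) ≤ 3 * Fintype.card V + 3 * (2 * h) := by
      have h4 : Nat.card G.edgeSet ≤ 3 * Fintype.card V + 3 * (2 * h) := by omega
      exact_mod_cast h4
    have h4 := key (2 * h) h3
    rwa [show 6 * (2 * (h : ℝ)) = 12 * h by ring] at h4

end Pool.Agent.Results.MP_f930e6_co.LargeAverageDegree
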